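import Mathlib
import Pool.Agent.Helper46.Balanced.Extend

set_option autoImplicit false

namespace Pool.Agent.Results.MP_d3ee63_an.Main

open MeasureTheory Pool.Agent.Helper46.Balanced

/-- For every non-integer `β > 2`, Lebesgue almost every `x` in `[0, ⌊β⌋ / (β - 1)]` has a
continuum of balanced `β`-expansions. -/
theorem result (β : ℝ) (hβ : 2 < β) (hni : ∀ n : ℕ, β ≠ n) :
    ∀ᵐ x ∂(volume.restrict (Set.Icc (0 : ℝ) ((⌊β⌋₊ : ℝ) / (β - 1)))),
      Cardinal.mk {ε : ℕ → ℕ | IsExpansion β ε x ∧ IsBalanced ⌊β⌋₊ ε} = Cardinal.continuum := by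
  filter_upwards [ae_rich_all hβ hni] with x hx
  exact hx.card

end Pool.Agent.Results.MP_d3ee63_an.Main
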